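import Pool.Agent.Helper68.ES.St5

/-!
# Project ES (MP_cb927e_an): module OII
-/

set_option autoImplicit false

open MeasureTheory Set Filter Topology
open scoped ENNReal RealInnerProductSpace

namespace Pool.Agent.Helper81.ES

open Pool.Agent.Helper68.ES Pool.Agent.Helper68.EP Pool.Agent.Helper20.RG
open Pool.Agent.Helper20.RL (RQ Rich BM Fml Hit)
open Pool.Agent.Helper68.LM (Pl BB Bd Av HL ft fm DQ)

/-- the geometric series over the integers -/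
theorem sum_int (c : ℝ) (hc : 0 < c) : Summable (fun n : ℤ => (2 : ℝ) ^ (-(c * |(n : ℝ)|))) := by
  have h1 : Summable (fun n : ℕ => (2 : ℝ) ^ (-(c * (n : ℝ)))) := by
    have h2 : (fun n : ℕ => (2 : ℝ) ^ (-(c * (n : ℝ)))) = fun n : ℕ => ((2 : ℝ) ^ (-c)) ^ n := by
      funext n
      rw [← Real.rpow_natCast, ← Real.rpow_mul (by norm_num)]
      congr 1
      ring
    rw [h2]
    apply summable_geometric_of_lt_one (by positivity)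
    apply Real.rpow_lt_one_of_one_lt_of_neg (by norm_num)
    linarith
  apply Summable.of_nat_of_neg
  · refine h1.congr (fun n => ?_)
    congr 3
    simp
  · refine h1.congr (fun n => ?_)
    congr 3
    simp

theorem sumz (c : ℝ) (hc : 0 < c) : ∃ K : ℝ, 0 ≤ K ∧
    ∑' t : ℤ × ℤ × ℤ, ENNReal.ofReal ((2 : ℝ) ^ (-(c * sz t.1 t.2.1 t.2.2))) ≤ ENNReal.ofReal K := by
  obtain ⟨a, ha⟩ : ∃ a : ℤ → ℝ, a = fun n : ℤ => (2 : ℝ) ^ (-(c * |(n : ℝ)|)) := ⟨_, rfl⟩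
  have ha0 : ∀ n, 0 ≤ a n := by
    intro n
    rw [ha]
    positivity
  have hs : Summable a := by
    rw [ha]
    exact sum_int c hc
  have hA : ∑' n : ℤ, ENNReal.ofReal (a n) = ENNReal.ofReal (∑' n, a n) :=
    (ENNReal.ofReal_tsum_of_nonneg ha0 hs).symm
  have hA0 : 0 ≤ ∑' n, a n := tsum_nonneg ha0
  refine ⟨(∑' n, a n) * ((∑' n, a n) * ∑' n, a n), by positivity, le_of_eq ?_⟩
  have h1 : ∀ t : ℤ × ℤ × ℤ, ENNReal.ofReal ((2 : ℝ) ^ (-(c * sz t.1 t.2.1 t.2.2))) =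
      ENNReal.ofReal (a t.1) * (ENNReal.ofReal (a t.2.1) * ENNReal.ofReal (a t.2.2)) := by
    intro t
    rw [← ENNReal.ofReal_mul (ha0 _), ← ENNReal.ofReal_mul (ha0 _)]
    congr 1
    simp only [ha]
    rw [← Real.rpow_add (by norm_num), ← Real.rpow_add (by norm_num)]
    congr 1
    unfold sz
    ring
  simp only [h1]
  rw [ENNReal.tsum_prod', ENNReal.ofReal_mul hA0, ENNReal.ofReal_mul hA0, ← hA, ← ENNReal.tsum_mul_right]
  refine tsum_congr (fun x => ?_)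
  dsimp only
  rw [ENNReal.tsum_mul_left]
  congr 1
  rw [ENNReal.tsum_prod', ← ENNReal.tsum_mul_right]
  refine tsum_congr (fun y => ?_)
  dsimp only
  rw [ENNReal.tsum_mul_left]

/-- countable subadditivity with weights -/
theorem sub_sum {ι : Type} [Countable ι] (w : ℤ → ℝ≥0∞) (S A B : ℤ → Set Pl) (T : ι → ℤ → Set Pl)
    (I a b : ℝ≥0∞) (t : ι → ℝ≥0∞) (hS : ∀ l, S l ⊆ A l ∪ B l ∪ ⋃ i, T i l)
    (hA : ∑' l, w l * volume (A l) ≤ a * I) (hB : ∑' l, w l * volume (B l) ≤ b * I)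
    (hT : ∀ i, ∑' l, w l * volume (T i l) ≤ t i * I) :
    ∑' l, w l * volume (S l) ≤ (a + b + ∑' i, t i) * I := by
  have h1 : ∀ l, w l * volume (S l) ≤
      w l * volume (A l) + w l * volume (B l) + ∑' i, w l * volume (T i l) := by
    intro l
    rw [ENNReal.tsum_mul_left, ← mul_add, ← mul_add]
    apply mul_le_mul_right
    refine (measure_mono (hS l)).trans ((measure_union_le _ _).trans ?_)
    exact add_le_add (measure_union_le _ _) (measure_iUnion_le _)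
  calc ∑' l, w l * volume (S l)
      ≤ ∑' l, (w l * volume (A l) + w l * volume (B l) + ∑' i, w l * volume (T i l)) :=
        ENNReal.tsum_le_tsum h1
    _ = ∑' l, w l * volume (A l) + ∑' l, w l * volume (B l) + ∑' i, ∑' l, w l * volume (T i l) := by
        rw [ENNReal.tsum_add, ENNReal.tsum_add, ENNReal.tsum_comm]
    _ ≤ a * I + b * I + ∑' i, t i * I := add_le_add (add_le_add hA hB) (ENNReal.tsum_le_tsum hT)
    _ = (a + b + ∑' i, t i) * I := by rw [ENNReal.tsum_mul_right, add_mul, add_mul]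

theorem hOII (hTRW : StTRW) (hPX3 : StPX3) (hTYP : StTYP) (hPIG : StPIG) :
    Pool.Agent.Helper68.ES.StOII := by
  intro p hp1 hp2 hp3
  obtain ⟨δ₀, c₄, e₁, hδ₀, hc₄, he₁, he₁p, T⟩ := hTYP p hp1 hp2 hp3
  refine ⟨e₁ / 6, by positivity, ?_⟩
  intro P Cf c₀ hPp hPs hCf hc₀
  obtain ⟨u₁, c, hc, hc1, G⟩ := hPIG p e₁ c₀ δ₀ hp1 hp2 he₁ hc₀ hδ₀
  obtain ⟨u₂, C₂, hC₂, T2⟩ := T P Cf c δ₀ hPp hPs hCf hc hc1 hδ₀ le_rfl
  obtain ⟨u₃, C₃, hu₃, hC₃, X⟩ := hPX3 P e₁ he₁ (by linarith)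
  obtain ⟨u₄, C₄, hu₄, hC₄, W⟩ := hTRW P e₁ he₁ (by rw [hPp]; linarith)
  obtain ⟨Kz, hKz0, hKz⟩ := sumz c₄ hc₄
  have hCK : 0 ≤ C₂ * Kz := mul_nonneg (by linarith) hKz0
  refine ⟨max (max u₁ u₂) (max u₃ u₄), C₄ + C₃ + C₂ * Kz, by linarith, ?_⟩
  intro φ τ ct U₀ f hG hA hGap hSy hct hU hf hf0
  have hU1 : u₁ ≤ U₀ := (le_max_left _ _).trans ((le_max_left _ _).trans hU)
  have hU2 : u₂ ≤ U₀ := (le_max_right _ _).trans ((le_max_left _ _).trans hU)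
  have hU3 : u₃ ≤ U₀ := (le_max_left _ _).trans ((le_max_right _ _).trans hU)
  have hU4 : u₄ ≤ U₀ := (le_max_right _ _).trans ((le_max_right _ _).trans hU)
  subst hPp
  have key := sub_sum (ι := ℤ × ℤ × ℤ) (fun l : ℤ => ENNReal.ofReal ((2 : ℝ) ^ (P.p * l)))
    (fun l : ℤ => {x | ∃ (k : ℤ) (V : ℕ),
      c₀ ≤ ∑ u ∈ Finset.Ico U₀ V, cr P (dat τ) ct (e₁ / 6) u k (Gf f (l + (u : ℤ))) x})
    (fun l : ℤ => {x | ∃ (k : ℤ) (u q i : ℕ), u₄ ≤ u ∧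
      Crit P.p (e₁ / 6) u q i ∧ (2 : ℝ) ^ ((i : ℝ) + e₁ / 2 * u) ≤
        hn P (dat τ) ct u q i k (Gf f (l + (u : ℤ))) x})
    (fun l : ℤ => {x | ∃ (k R Y β : ℤ) (w u q₁ q₂ i₁ i₂ : ℕ),
      u₃ ≤ w ∧ w ≤ u ∧ Cfg P.p e₁ R Y β w q₁ i₁ ∧ Cfg P.p e₁ R Y β u q₂ i₂ ∧
      mb i₁ β * mb i₂ β / 16 ≤
        ((Fp P (dat τ) ct w u q₁ q₂ i₁ i₂ k (Gf f (l + (w : ℤ))) (Gf f (l + (u : ℤ))) x).ncard : ℝ)})
    (fun (t : ℤ × ℤ × ℤ) (l : ℤ) => {x | ∃ (k : ℤ) (V : Finset ℕ) (q i : ℕ → ℕ),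
      nn c δ₀ t.1 t.2.1 t.2.2 ≤ (V.card : ℝ) ∧
      (∀ w ∈ V, u₂ ≤ w ∧ Ac P (dat τ) ct e₁ t.1 t.2.1 t.2.2 w (q w) (i w) k (Gf f (l + (w : ℤ))) x) ∧
      ∀ w ∈ V, ∀ u ∈ V, w ≤ u → ((Fp P (dat τ) ct w u (q w) (q u) (i w) (i u) k (Gf f (l + (w : ℤ)))
        (Gf f (l + (u : ℤ))) x).ncard : ℝ) < mb (i w) t.2.2 * mb (i u) t.2.2 / 16})
    (∫⁻ x, ENNReal.ofReal (f x) ^ P.p) (ENNReal.ofReal C₄) (ENNReal.ofReal C₃)
    (fun t => ENNReal.ofReal (C₂ * (2 : ℝ) ^ (-(c₄ * sz t.1 t.2.1 t.2.2)))) ?_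
    (W (dat τ) ct f hSy hf hf0) (X (dat τ) ct f hSy hf hf0)
    (fun t => T2 φ τ ct t.1 t.2.1 t.2.2 f hG hA hGap hSy hct hf hf0)
  · refine key.trans ?_
    apply mul_le_mul_left
    rw [ENNReal.ofReal_add (by linarith) hCK, ENNReal.ofReal_add (by linarith) (by linarith)]
    apply add_le_add le_rfl
    have h1 : ∀ t : ℤ × ℤ × ℤ, ENNReal.ofReal (C₂ * (2 : ℝ) ^ (-(c₄ * sz t.1 t.2.1 t.2.2))) =
        ENNReal.ofReal C₂ * ENNReal.ofReal ((2 : ℝ) ^ (-(c₄ * sz t.1 t.2.1 t.2.2))) := fun t =>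
      ENNReal.ofReal_mul (by linarith)
    simp only [h1]
    rw [ENNReal.tsum_mul_left, ENNReal.ofReal_mul (by linarith)]
    exact mul_le_mul_right hKz _
  · intro l x hx
    obtain ⟨k, V, hV⟩ := hx
    rcases G P (dat τ) ct U₀ V k (fun u => Gf f (l + (u : ℤ))) x rfl hU1 hV with h | h
    · obtain ⟨u, q, i, h1, h2, h3⟩ := h
      exact Or.inl (Or.inl ⟨k, u, q, i, hU4.trans h1, h2, h3⟩)
    · obtain ⟨R, Y, β, V', q, i, h1, h2⟩ := h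
      by_cases hx2 : ∃ w ∈ V', ∃ u ∈ V', w ≤ u ∧ mb (i w) β * mb (i u) β / 16 ≤
          ((Fp P (dat τ) ct w u (q w) (q u) (i w) (i u) k (Gf f (l + (w : ℤ)))
            (Gf f (l + (u : ℤ))) x).ncard : ℝ)
      · obtain ⟨w, hw, u, hu, hwu, h4⟩ := hx2
        exact Or.inl (Or.inr ⟨k, R, Y, β, w, u, q w, q u, i w, i u, hU3.trans (h2 w hw).1, hwu,
          (h2 w hw).2.cfg, (h2 u hu).2.cfg, h4⟩)
      · push Not at hx2
        refine Or.inr (mem_iUnion.2 ⟨(R, Y, β), k, V', q, i, h1, fun w hw => ⟨hU2.trans (h2 w hw).1,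
          (h2 w hw).2⟩, hx2⟩)

end Pool.Agent.Helper81.ES
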